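import Mathlib
import Pool.Agent.T6.H48.ZZ.ARG
import Pool.Agent.T6.H48.ZZ.MONO
import Pool.Agent.T6.H48.ZZ.CURVE
import Pool.Agent.T6.H48.ZZ.GAPI
import Pool.Agent.T6.H48.ZZ.GAP
import Pool.Agent.T6.H48.ZZ.GAPLB
import Pool.Agent.T6.H48.ZZ.ZINJ
import Pool.Agent.T6.H48.ZZ.PF
import Pool.Agent.T6.H48.ZZ.PFZ
import Pool.Agent.T6.H48.ZZ.EST
import Pool.Agent.T6.H48.ZZ.ESTZ
import Pool.Agent.T6.H48.ZZ.LOW
import Pool.Agent.T6.H48.ZZ.TYPE1
import Pool.Agent.T6.H48.ZZ.LCA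
import Pool.Agent.T6.H48.ZZ.LIMB
import Pool.Agent.T6.H48.ZZ.LCB
import Pool.Agent.T6.H48.ZZ.LIM1
import Pool.Agent.T6.H48.ZZ.LC1
import Pool.Agent.T6.H48.ZZ.LIMM
import Pool.Agent.T6.H48.ZZ.LCM
import Pool.Agent.T6.H48.ZZ.LIM2
import Pool.Agent.T6.H48.ZZ.LC2
import Pool.Agent.T6.H48.ZZ.LIM0
import Pool.Agent.T6.H48.ZZ.LC0
import Pool.Agent.T6.H48.ZZ.LIFT
import Pool.Agent.T6.H48.ZZ.COUNT
import Pool.Agent.T6.H48.ZZ.GLOB
import Pool.Agent.T6.H48.ZZ.LOCAL
import Pool.Agent.T6.H48.ZZ.DEG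
import Pool.Agent.T6.H48.ZZ.PCONT
import Pool.Agent.T6.H48.ZZ.RED
import Pool.Agent.T6.H48.ZZ.N11
import Pool.Agent.T6.H48.ZZ.ROOT
import Pool.Agent.T6.H48.ZZ.DAT
import Pool.Agent.T6.H48.ZZ.POS
import Pool.Agent.T6.H48.ZZ.FIN

/-!
# Zeros of the coefficients of `N(t,z) / (Q(t) + z t^r)` outside the positive half line

`Q` is a non-constant real polynomial with `Q(0) > 0` all of whose complex zeros are positive
reals. For every `r ≥ 0` and every polynomial `N(t,z)` the coefficients `P_m(z)` of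
`N(t,z) / (Q(t) + z t^r)` have a bounded number of zeros (with multiplicity) outside `(0,∞)`.
-/

set_option autoImplicit false

namespace Pool.Agent.Results.MP_4d57dd_an.BoundedExceptionalZeros

open Polynomial

/-- `P_m(z)`, the coefficient of `t^m` of the power series (in `t`, over the field of rational
functions of `z`) of `N(t,z) / (Q(t) + z t^r)`. The polynomial `N` is written as a polynomial in
`t` whose coefficients are polynomials in `z`. -/
noncomputable def coeffP (Q : ℝ[X]) (r : ℕ) (N : ℝ[X][X]) (m : ℕ) : RatFunc ℝ :=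
  PowerSeries.coeff m
    (((N.map (algebraMap ℝ[X] (RatFunc ℝ)) : (RatFunc ℝ)[X]) : PowerSeries (RatFunc ℝ)) *
      (((Q.map (algebraMap ℝ (RatFunc ℝ)) + C RatFunc.X * X ^ r : (RatFunc ℝ)[X])) :
        PowerSeries (RatFunc ℝ))⁻¹)

/-- The number of zeros in `ℂ` outside `(0,∞)`, counted with multiplicity, of a rational function
of `z` (the zeros of its numerator in lowest terms). -/
noncomputable def exceptionalZeros (f : RatFunc ℝ) : ℕ :=
  ((f.num.map (algebraMap ℝ ℂ)).roots.filter (fun w => ¬ (w.im = 0 ∧ 0 < w.re))).card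

/-- **Bounded number of exceptional zeros.** Let `Q` be a real non-constant polynomial with
`Q(0) > 0` all of whose complex zeros are positive reals, let `r ≥ 0` and let `N(t,z)` be any real
polynomial. There is a constant `K` such that for every `m` with `P_m ≠ 0`, the function `P_m` has
fewer than `K` zeros outside `(0,∞)`. -/
theorem result (Q : ℝ[X]) (r : ℕ) (N : ℝ[X][X]) (hQ0 : 0 < Q.eval 0) (hQ : 0 < Q.natDegree)
    (hroots : ∀ w : ℂ, (Q.map (algebraMap ℝ ℂ)).IsRoot w → w.im = 0 ∧ 0 < w.re) :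
    ∃ K : ℕ, ∀ m : ℕ, coeffP Q r N m ≠ 0 → exceptionalZeros (coeffP Q r N m) < K := by
  open Pool.Agent.T6.H48.ZZ in
  have hG : StmGAP := mGAP mARG mGAPI
  have hGL : StmGAPLB := mGAPLB hG
  have hz : StmZINJ := mZINJ mARG hG
  have hT : StmTYPE1 := mTYPE1 mLOW hz
  have hPOS : StmPOS := mPOS (mCURVE mMONO) hz (mEST mPF hz) (mESTZ mPFZ hz) (mLCA hz hT)
    (mLCB mARG hG hT (mLIMB mMONO)) (mLCM mARG hGL hz mLOW (mLIMM mMONO))
    (mLC1 mARG hG hT (mLIM1 mMONO)) (mLC2 mARG hGL hz (mLIM2 mMONO))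
    (mLC0 mARG hGL hz (mLIM0 mMONO)) (mLOCAL mLIFT mCOUNT mPCONT hz) mGLOB
  exact mFIN mRED mDEG mN11 mROOT mDAT hPOS Q r N hQ0 hQ
    (fun w hw => hroots w (isRoot_of_mem_roots hw))

end Pool.Agent.Results.MP_4d57dd_an.BoundedExceptionalZeros
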